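import Mathlib
import Pool.Agent.H443.VF.App

/-!
# `p`-adic Schanuel conjecture: the logarithms of all conjugates of almost all algebraic integers, with
arbitrary spaces of coefficients

Let `K_1, ..., K_k` be number fields (not necessarily distinct) and let `b_j` be a basis of `K_j` over
`ℚ`. For vectors `x_j` of integers put `α_j = ∑ x_ji b_ji ∈ K_j`; if `b_j` is an integral basis these
are the integers of `K_j`. Let `p` be a prime and let `W` be any subspace, of dimension at most `n` over
the field `ℚ̄` of the algebraic numbers, of the algebraic closure `Ω_p` of `ℚ_p`, for example the space of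
the values `P(t_1, ..., t_s)` at arbitrary numbers `t_i` of all polynomials of bounded degree over `ℚ̄`. We
show that for almost all `(x_1, ..., x_k)` the `[K_1 : ℚ] + ... + [K_k : ℚ]` numbers `log_p σ(α_j)`, where
`σ` runs through ALL the embeddings of `K_j` into `Ω_p`, satisfy no nonzero polynomial relation of total
degree at most `D` with coefficients in `W`. There is no bound for the heights and the degrees of the
coefficients.

The number of exceptional `(x_1, ..., x_k)` with `|x_ji| ≤ N_j` is at most `ε ∏ (2 N_j + 1) ^ [K_j : ℚ]` if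
all the `N_j` are at least `N₀`, and `N₀` depends neither on `W`, nor on the prime `p`, nor on the ratios of
the `N_j`.

Known before (`AlmostAllTuples`): the case `K_1 = ... = K_k = ℚ`. Over the complex numbers, for
relations between the logarithms and numbers `t_i` which are free in degree `≤ D`, the theorem is
MP_60829e_nt.ConjugatesOfAlmostAllIntegers; the coefficient spaces `W` are new there as well.

The proof.
* `VF.Cube`: a large cube of vectors with linearly independent entries in a space which is wide (in a suitable sense) for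
  all finite dimensional spaces has a vertex which satisfies no polynomial relation of degree `≤ D` with
  coefficients in a given space of dimension `≤ n` (evaluation determinants, and an induction on the
  degree in which the dimension of the space of coefficients grows); `VF.Wide`: the spaces of linear
  forms in logarithms are wide, by the hyperplane case of the theorem of Waldschmidt and Roy, and by the
  theorem of Brumer.
* `VF.Val`: the conjugates of the ratios of the generators in a multiplicative cube of integers of `K`
  (constructed in `NF.Cub`) are multiplicatively independent in each field of characteristic zero, also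
  modulo a prime number, with a bound which does not depend on the field; the valuation rings of `Ω_p`
  which are used need not be related to the absolute value.
* `VF.Sys`, `VF.Tup`, `VF.App`: almost all integers, and almost all tuples, for an abstract logarithm;
  `VF.CInst`: the Iwasawa logarithm.
-/

set_option autoImplicit false

open NumberField Module

namespace Pool.Agent.Results.MP_c50dba_nt.ConjugatesOfAlmostAllIntegers

/-- `L` is the Iwasawa `p`-adic logarithm on the algebraic closure of `ℚ_p`. -/
def IsIwasawaLog (p : ℕ) [Fact p.Prime] (L : PadicAlgCl p → PadicAlgCl p) : Prop :=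
  (∀ x y : PadicAlgCl p, x ≠ 0 → y ≠ 0 → L (x * y) = L x + L y) ∧
  L ((p : ℕ) : PadicAlgCl p) = 0 ∧
  ∀ z : PadicAlgCl p, ‖z‖ < 1 →
    HasSum (fun n : ℕ => (-1 : PadicAlgCl p) ^ n * z ^ (n + 1) / ((n : PadicAlgCl p) + 1))
      (L (1 + z))

/-- The element `∑ x_i b_i` of the number field `K`. -/
noncomputable def elt {K : Type} [Field K] [NumberField K] {ι : Type} [Fintype ι]
    (b : Module.Basis ι ℚ K) (x : ι → ℤ) : K := ∑ i, (x i : K) * b i

/-- The logarithms `L σ(α_j)`, where `σ` runs through all the embeddings of `K j` into the algebraic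
closure of `ℚ_p`, for all `j`. -/
noncomputable def conjLogs {p : ℕ} [Fact p.Prime] (L : PadicAlgCl p → PadicAlgCl p) {k : ℕ}
    {K : Fin k → Type} [∀ j, Field (K j)] (α : ∀ j, K j) :
    (Σ j : Fin k, (K j →+* PadicAlgCl p)) → PadicAlgCl p := fun z => L (z.2 (α z.1))

/-- The tuples of nonzero vectors of integers, the entries of `x j` being bounded by `N j`. -/
def Box {k : ℕ} (ι : Fin k → Type) (N : Fin k → ℕ) : Set (∀ j, ι j → ℤ) :=
  {x | ∀ j, x j ≠ 0 ∧ ∀ i, |x j i| ≤ (N j : ℤ)}

/-- The numbers `y i` satisfy a nonzero polynomial relation of total degree at most `D` with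
coefficients in `W`. -/
def Related {p : ℕ} [Fact p.Prime]
    (W : Submodule (algebraicClosure ℚ (PadicAlgCl p)) (PadicAlgCl p)) (D : ℕ) {σ : Type}
    (y : σ → PadicAlgCl p) : Prop :=
  ∃ P : MvPolynomial σ (PadicAlgCl p), P ≠ 0 ∧ P.totalDegree ≤ D ∧ (∀ s, P.coeff s ∈ W) ∧
    MvPolynomial.eval y P = 0

/-- **Main result.** -/
theorem result (k n D : ℕ) (K : Fin k → Type) [∀ j, Field (K j)] [∀ j, NumberField (K j)]
    (ι : Fin k → Type) [∀ j, Fintype (ι j)] (b : ∀ j, Module.Basis (ι j) ℚ (K j))
    (ε : ℝ) (hε : 0 < ε) :
    ∃ N₀ : ℕ, ∀ N : Fin k → ℕ, (∀ j, N₀ ≤ N j) →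
      ∀ (p : ℕ) [Fact p.Prime] (L : PadicAlgCl p → PadicAlgCl p), IsIwasawaLog p L →
      ∀ W : Submodule (algebraicClosure ℚ (PadicAlgCl p)) (PadicAlgCl p),
        Module.Finite (algebraicClosure ℚ (PadicAlgCl p)) W →
        finrank (algebraicClosure ℚ (PadicAlgCl p)) W ≤ n →
        ({x ∈ Box ι N | Related W D (conjLogs L fun j => elt (b j) (x j))}.ncard : ℝ) ≤
          ε * ∏ j, (2 * (N j : ℝ) + 1) ^ finrank ℚ (K j) := by
  classical
  obtain ⟨N₀, hN₀⟩ := Pool.Agent.H443.VF.tuples_det K ι b n D ε hε
  refine ⟨N₀, fun N hN => ?_⟩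
  intro p _ L hL W hWf hWn
  have hL' : Pool.Agent.W245.PB.IsIwasawaLog p L := ⟨hL.1, hL.2.1, hL.2.2⟩
  have hsub : {x ∈ Box ι N | Related W D (conjLogs L fun j => elt (b j) (x j))} ⊆
      ((Fintype.piFinset fun j => Pool.Agent.H443.VF.box (ι j) (N j) :
        Finset (∀ j, ι j → ℤ)) : Set (∀ j, ι j → ℤ)) := by
    intro x hx
    rw [Finset.mem_coe, Fintype.mem_piFinset]
    intro j
    rw [Pool.Agent.H443.VF.mem_box]
    exact (hx.1 j).2
  have hfin := (Finset.finite_toSet _).subset hsub
  rw [Set.ncard_eq_toFinset_card _ hfin]
  refine hN₀ N hN (PadicAlgCl p) (Pool.Agent.H443.VF.pSys hL') W hWf hWn _ ?_ ?_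
  · intro x hx
    exact Finset.mem_coe.1 (hsub ((Set.Finite.mem_toFinset _).1 hx))
  · intro x hx
    obtain ⟨hx0, P, hP0, hPD, hPW, hP⟩ := (Set.Finite.mem_toFinset _).1 hx
    refine ⟨fun j => (hx0 j).1, conjLogs L fun j => elt (b j) (x j), fun z => ⟨0, ?_⟩, fun h => ?_⟩
    · show _ = L _ + _
      rw [Int.cast_zero, zero_mul, add_zero]
      rfl
    · exact hP0 ((Pool.Agent.H443.VF.freeOver_iff W D _).1 h P hPD hPW hP)

end Pool.Agent.Results.MP_c50dba_nt.ConjugatesOfAlmostAllIntegers
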