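import Pool.Agent.H512.G.Main

set_option autoImplicit false
set_option linter.unusedSectionVars false

/-!
# `p`-adic Schanuel conjecture: mixed group determinants of logarithms do not vanish

Let `k ⊆ K ⊆ H` be number fields, `H/k` abelian with group `A`, `d = [K : k]`, let
`s : H → ℚ̄_p` be an embedding with `s(k) ⊆ ℚ_p` and `g` an automorphism of `H` which maps `k` and
`K` to themselves and commutes with `A` on `K`. Let `r` be a power of a prime number `l` which does
not divide `d`, `g ^ r = 1` on `k`, and `g h g⁻¹ = h ^ n` for all `h` in `Gal(H/K)`, where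
`h ^ n = h` if the order of `h` is prime to `p` (for example `Gal(H/K)` is cyclic of `p`-power
order). Suppose `p = l` or `p > (d!) ^ (r d)`.

Let `x ∈ H`, `x ≠ 0`, be fixed by `g`, such that the logarithms `X_h = log_p s(h x)`, `h ∈ A`, are
linearly independent over `ℚ`. For every function `i : Gal(K/k) → ℕ` the square matrix of size
`|A| = [H : k]` with the entries

`log_p s(g ^ {i(h)} h h' x)`, `h, h' ∈ A`, `i(h) = i(h|K)`,

is nonsingular: its rows may be taken from any of the `r` matrices `(log_p s(g^i h h' x))`,
`0 ≤ i < r`, depending on `h|K`. The entries are permutations of the numbers `X_h`; the determinant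
is a polynomial of degree `[H : k]` in all of them, which for nonconstant `i` and noncommuting
`g` and `A` is not a product of linear forms in general. The prime `p` has to be large in terms of
`d` and `r`, but not in terms of the degree of `H`.

For `i = 0` this is the theorem of Brumer (the determinant of a commutative group is a product of
linear forms). In the other cases it is a special case of the `p`-adic Schanuel conjecture for which
linear forms in logarithms are not enough. Proof: let `F_i(ψ) = ∑ ψ(h)⁻¹ log_p s(g^i h x)`, which is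
not `0` by Brumer's theorem. There is an automorphism `τ` of `ℚ̄_p/ℚ_p` which acts on the values of
all characters of `A` as `g` acts on the characters, and trivially on any given finite set of
residues modulo the maximal ideal. It maps `F_i(ψ)` to `F_{i+1}(ψ)` up to a root of unity, so that
the quotients `F_i(ψ) / F_0(ψ)` are units, congruent to `c_i ζ_ψ^i` with an `r`-th root of unity
`ζ_ψ` for all `ψ` with the same restriction to `Gal(H/K)`, the units `c_i` depending only on this
restriction. This reduces the claim to the determinant of the matrix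
`(ω(δ) ζ_ω ^ {i(δ)})`, `δ ∈ Gal(K/k)`, `ω` a character of `Gal(K/k)`. It is an algebraic integer all
of whose conjugates are at most `d!` in absolute value, and it is congruent to `det (ω(δ))`, a unit
at `l`, modulo the primes above `l`; hence it is a unit at `p`.
-/

namespace Pool.Agent.Results.MP_c50dba_nt.MixedGroupDeterminants

open scoped Nat

/-- `L` is the Iwasawa logarithm on the algebraic closure of `ℚ_p`. -/
def IsIwasawaLog (p : ℕ) [Fact p.Prime] (L : PadicAlgCl p → PadicAlgCl p) : Prop :=
  (∀ x y : PadicAlgCl p, x ≠ 0 → y ≠ 0 → L (x * y) = L x + L y) ∧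
  L ((p : ℕ) : PadicAlgCl p) = 0 ∧
  ∀ z : PadicAlgCl p, ‖z‖ < 1 →
    HasSum (fun n : ℕ => (-1 : PadicAlgCl p) ^ n * z ^ (n + 1) / ((n : PadicAlgCl p) + 1))
      (L (1 + z))

/-- **Mixed group determinants of `p`-adic logarithms.** -/
theorem result (p : ℕ) [Fact p.Prime] (L : PadicAlgCl p → PadicAlgCl p) (hL : IsIwasawaLog p L)
    -- `k ⊆ K ⊆ H`, `H/k` abelian
    (k K H : Type) [Field k] [NumberField k] [Field K] [NumberField K] [Field H] [NumberField H]
    [Algebra k K] [Algebra K H] [Algebra k H] [IsScalarTower k K H]
    [IsGalois k K] [IsGalois k H] [DecidableEq (H ≃ₐ[k] H)]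
    (hab : ∀ a b : H ≃ₐ[k] H, a * b = b * a)
    -- the embedding `s` with `s(k) ⊆ ℚ_p`
    (s : H →+* PadicAlgCl p)
    (hs : ∀ y : k, ∃ c : ℚ_[p], s (algebraMap k H y) = algebraMap ℚ_[p] (PadicAlgCl p) c)
    -- the automorphism `g` maps `k` and `K` to themselves, and commutes with `A` on `K`
    (g : H ≃ₐ[ℚ] H) (hgk : ∀ y : k, ∃ z : k, g (algebraMap k H y) = algebraMap k H z)
    (hgK : ∀ y : K, ∃ z : K, g (algebraMap K H y) = algebraMap K H z)
    (hgab : ∀ (h : H ≃ₐ[k] H) (y : K), g (h (algebraMap K H y)) = h (g (algebraMap K H y)))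
    -- `g h g⁻¹ = h ^ n` on `Gal(H/K)`, where `h ^ n = h` if the order of `h` is prime to `p`
    (n : ℕ) (hgn : ∀ (h : H ≃ₐ[K] H) (y : H), g (h y) = (h ^ n) (g y))
    (hn : ∀ h : H ≃ₐ[K] H, (orderOf h).Coprime p → h ^ n = h)
    -- `r = l ^ a`, `g ^ r = 1` on `k`, `l` does not divide `d = [K : k]`
    (l a : ℕ) (hl : l.Prime)
    (hgl : ∀ y : k, (g ^ l ^ a) (algebraMap k H y) = algebraMap k H y)
    (hld : ¬ l ∣ Module.finrank k K)
    -- `p = l` or `p > (d!) ^ (r d)`
    (hp : p = l ∨ (Module.finrank k K)! ^ (l ^ a * Module.finrank k K) < p)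
    -- `x` is fixed by `g`, and the logarithms of its conjugates under `A` are independent
    (x : H) (hx : x ≠ 0) (hgx : g x = x)
    (hli : LinearIndependent ℚ fun h : H ≃ₐ[k] H => L (s (h x)))
    -- the choice of the rows
    (i : (K ≃ₐ[k] K) → ℕ) :
    (Matrix.of fun h h' : H ≃ₐ[k] H =>
      L (s ((g ^ i (AlgEquiv.restrictNormalHom K h)) (h (h' x))))).det ≠ 0 := by
  have : FiniteDimensional k H := Module.Finite.of_restrictScalars_finite ℚ k H
  have : FiniteDimensional K H := Module.Finite.of_restrictScalars_finite ℚ K H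
  have : FiniteDimensional k K := Module.Finite.of_restrictScalars_finite ℚ k K
  have : IsGalois K H := IsGalois.tower_top_of_isGalois k K H
  have : Fact l.Prime := ⟨hl⟩
  exact Pool.Agent.H512.G.mixed ⟨hL.1, hL.2.1, hL.2.2⟩ hab s hs g hgk hgK hgab n hgn hn l a hgl hld
    hp x hx hgx hli i

end Pool.Agent.Results.MP_c50dba_nt.MixedGroupDeterminants
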