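import Pool.Agent.H512.CJ.Mono

/-!
# `p`-adic logarithms: transcendence of monomials in the logarithms of conjugates

Let `t` be an automorphism of order dividing `m` of a field `F ⊆ ℚ̄_p` over a field `K` which contains `ℚ_p`, and let
`α ∈ F` be an algebraic number. The `p`-adic Schanuel conjecture implies that no nontrivial monomial in linearly
independent logarithms is algebraic. We consider the monomials `∏ (log t ^ i α) ^ n_i`, `0 ≤ i < m`, with arbitrary
integral exponents, and prove that they are transcendental if `∑ n_i ζ ^ i ≠ 0` for the primitive `m`-th roots of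
unity `ζ`, when `m` has at most two prime divisors. For a prime number `m` this means that the `n_i` are not all equal.

Idea of the proof. The multiplicative group `W` of `F` modulo the algebraic numbers is torsion free, and the Galois
group of `ℚ_p` acts on it, since the logarithm commutes with continuous automorphisms. An algebraic monomial means that
`f(t)` kills the class `w` of `log α`, `f = ∑ n_i X ^ i`. As the cyclotomic polynomial `Φ_m` does not divide `f`, and
is irreducible over `ℚ`, the class is killed by `(X ^ m - 1) / Φ_m` after tensoring with `ℚ`. If `m` is a power of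
a prime `q`, this is `t ^ (m / q) - 1`, hence the quotient of the logarithms of `t ^ (m / q) α` and of `α` is algebraic
and we get a contradiction to Brumer's theorem. If `m` has two prime divisors, `(t ^ (m / q₁) - 1) (t ^ (m / q₂) - 1)`
kills `w`, and we get a contradiction to the strong six exponentials theorem for `p`-adic logarithms.
-/

set_option autoImplicit false

namespace Pool.Agent.Results.MP_c50dba_nt.MonomialsOfConjugates

/-- `L` is the Iwasawa `p`-adic logarithm on the algebraic closure of `ℚ_p`. -/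
def IsIwasawaLog (p : ℕ) [Fact p.Prime] (L : PadicAlgCl p → PadicAlgCl p) : Prop :=
  (∀ x y : PadicAlgCl p, x ≠ 0 → y ≠ 0 → L (x * y) = L x + L y) ∧
  L ((p : ℕ) : PadicAlgCl p) = 0 ∧
  ∀ z : PadicAlgCl p, ‖z‖ < 1 →
    HasSum (fun n : ℕ => (-1 : PadicAlgCl p) ^ n * z ^ (n + 1) / ((n : PadicAlgCl p) + 1))
      (L (1 + z))

/-- The algebraic numbers in the algebraic closure of `ℚ_p`. -/
noncomputable abbrev Qb (p : ℕ) [Fact p.Prime] : IntermediateField ℚ (PadicAlgCl p) :=
  algebraicClosure ℚ (PadicAlgCl p)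

/-- The linear combinations with algebraic coefficients of `1` and of the values of `L` at nonzero
algebraic numbers. -/
noncomputable def LogForms (p : ℕ) [Fact p.Prime] (L : PadicAlgCl p → PadicAlgCl p) :
    Submodule (Qb p) (PadicAlgCl p) :=
  Submodule.span (Qb p) ({1} ∪ {z | ∃ α : PadicAlgCl p, α ≠ 0 ∧ IsAlgebraic ℚ α ∧ z = L α})

/-- **Monomials in the logarithms of conjugates.** Let `t` be an automorphism of `F` over `K`, `ℚ_p ⊆ K ⊆ F ⊆ ℚ̄_p`,
`t ^ m = 1`, and let `n_0, …, n_{m-1}` be integers with `∑ n_i ζ ^ i ≠ 0` for a primitive `m`-th root of unity `ζ`.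

(1) Let `m = q ^ (k + 1)`, `q` prime. If `α ∈ F` is a nonzero algebraic number and `log α, log (t ^ (q ^ k) α)` are
linearly independent over `ℚ`, then `∏ (log (t ^ i α)) ^ n_i` is transcendental.

(2) Let `q₁, q₂` be the prime divisors of `m`. If `α ∈ F` is a nonzero algebraic number, `log α, log (t ^ (m / q₂) α)`
are linearly independent over `ℚ`, and so are `log α, log (σ α), log (σ² α)` for `σ = t ^ (m / q₁)`, then
`∏ (log (t ^ i α)) ^ n_i` is transcendental.

Both parts hold also for the conjugates `t ^ i x` of a linear combination `x ∈ F` of `1` and `p`-adic logarithms of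
algebraic numbers, with algebraic coefficients, with linear independence over the algebraic numbers. -/
theorem result (p : ℕ) [Fact p.Prime] (L : PadicAlgCl p → PadicAlgCl p) (hL : IsIwasawaLog p L)
    (K : IntermediateField ℚ_[p] (PadicAlgCl p)) (F : IntermediateField K (PadicAlgCl p))
    (t : F ≃ₐ[K] F) (m : ℕ) (hm : 0 < m) (ht : t ^ m = 1) (n : ℕ → ℤ) (ζ : ℂ) (hζ : IsPrimitiveRoot ζ m)
    (hn : ∑ i ∈ Finset.range m, (n i : ℂ) * ζ ^ i ≠ 0) :
    (∀ q k : ℕ, q.Prime → m = q ^ (k + 1) →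
      (∀ x : F, (x : PadicAlgCl p) ∈ LogForms p L →
        LinearIndependent (Qb p) ![(x : PadicAlgCl p), (((t ^ (q ^ k)) x : F) : PadicAlgCl p)] →
        Transcendental ℚ (∏ i ∈ Finset.range m, (((t ^ i) x : F) : PadicAlgCl p) ^ n i)) ∧
      (∀ α : F, α ≠ 0 → IsAlgebraic ℚ (α : PadicAlgCl p) →
        LinearIndependent ℚ ![L (α : PadicAlgCl p), L (((t ^ (q ^ k)) α : F) : PadicAlgCl p)] →
        Transcendental ℚ (∏ i ∈ Finset.range m, L (((t ^ i) α : F) : PadicAlgCl p) ^ n i))) ∧
    (∀ q₁ q₂ : ℕ, q₁.Prime → q₂.Prime → q₁ ∣ m → q₂ ∣ m → (∀ q, q.Prime → q ∣ m → q = q₁ ∨ q = q₂) →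
      (∀ x : F, (x : PadicAlgCl p) ∈ LogForms p L →
        LinearIndependent (Qb p) ![(x : PadicAlgCl p), (((t ^ (m / q₂)) x : F) : PadicAlgCl p)] →
        LinearIndependent (Qb p) ![(x : PadicAlgCl p), (((t ^ (m / q₁)) x : F) : PadicAlgCl p),
          (((t ^ (m / q₁)) ((t ^ (m / q₁)) x) : F) : PadicAlgCl p)] →
        Transcendental ℚ (∏ i ∈ Finset.range m, (((t ^ i) x : F) : PadicAlgCl p) ^ n i)) ∧
      (∀ α : F, α ≠ 0 → IsAlgebraic ℚ (α : PadicAlgCl p) →
        LinearIndependent ℚ ![L (α : PadicAlgCl p), L (((t ^ (m / q₂)) α : F) : PadicAlgCl p)] →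
        LinearIndependent ℚ ![L (α : PadicAlgCl p), L (((t ^ (m / q₁)) α : F) : PadicAlgCl p),
          L (((t ^ (m / q₁)) ((t ^ (m / q₁)) α) : F) : PadicAlgCl p)] →
        Transcendental ℚ (∏ i ∈ Finset.range m, L (((t ^ i) α : F) : PadicAlgCl p) ^ n i))) := by
  have hL' : Pool.Agent.W245.PB.IsIwasawaLog p L := ⟨hL.1, hL.2.1, hL.2.2⟩
  have hV : Pool.Agent.X148.TR.Two (LogForms p L) :=
    Pool.Agent.X148.TR.Two.of_hyp (Pool.Agent.W254.PA.hyp_padic hL')
  have hσ : ∀ σ : PadicAlgCl p ≃ₐ[ℚ_[p]] PadicAlgCl p, ∀ v ∈ LogForms p L,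
      σ v ∈ LogForms p L := fun σ v hv => Pool.Agent.E8helper92.PG.logForms_galois hL' σ hv
  have ne : ∀ {α : F}, α ≠ 0 → ∀ h : F ≃ₐ[K] F, ((h α : F) : PadicAlgCl p) ≠ 0 := fun hα0 h e =>
    (map_ne_zero h).2 hα0 (Subtype.ext e)
  have al : ∀ {α : F}, IsAlgebraic ℚ (α : PadicAlgCl p) → ∀ h : F ≃ₐ[K] F,
      IsAlgebraic ℚ ((h α : F) : PadicAlgCl p) := fun halg h => Pool.Agent.H512.CJ.alg_gal h halg
  refine ⟨?_, ?_⟩
  · intro q k hq hmq
    subst hmq
    have part : ∀ x : F, (x : PadicAlgCl p) ∈ LogForms p L →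
        LinearIndependent (Qb p) ![(x : PadicAlgCl p), (((t ^ (q ^ k)) x : F) : PadicAlgCl p)] →
        Transcendental ℚ (∏ i ∈ Finset.range (q ^ (k + 1)), (((t ^ i) x : F) : PadicAlgCl p) ^ n i) :=
      fun x _ h => Pool.Agent.H512.CJ.mono_pp hq ht n hζ hn h
    refine ⟨part, ?_⟩
    intro α hα0 halg h1
    obtain ⟨x, hx, hg⟩ := Pool.Agent.H512.CJ.log_lift (K := K) hL' hα0
    have ne1 : (α : PadicAlgCl p) ≠ 0 := fun e => hα0 (Subtype.ext e)
    have h2 := part x (by
      rw [hx]
      exact Submodule.subset_span (Or.inr ⟨_, ne1, halg, rfl⟩)) (by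
      rw [hx, hg]
      exact Pool.Agent.H512.CJ.indep_two hL' ne1 (ne hα0 _) halg (al halg _) h1)
    simp only [hg] at h2
    exact h2
  · intro q₁ q₂ hq₁ hq₂ hd₁ hd₂ hpr
    have ha : 0 < m / q₁ := Nat.div_pos (Nat.le_of_dvd hm hd₁) hq₁.pos
    have hb : 0 < m / q₂ := Nat.div_pos (Nat.le_of_dvd hm hd₂) hq₂.pos
    have hab : ∀ d, d ∣ m → d ≠ m → d ∣ m / q₁ ∨ d ∣ m / q₂ := by
      rintro d ⟨c, hc⟩ hdm
      have hd0 : 0 < d := Nat.pos_of_ne_zero (by
        rintro rfl
        rw [zero_mul] at hc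
        omega)
      have hc1 : c ≠ 1 := by
        rintro rfl
        rw [mul_one] at hc
        exact hdm hc.symm
      obtain ⟨q, hq, hqc⟩ := Nat.exists_prime_and_dvd hc1
      have hqm : q ∣ m := hc ▸ Dvd.dvd.mul_left hqc d
      have hdq : d ∣ m / q := by
        obtain ⟨c', hc'⟩ := hqc
        refine ⟨c', ?_⟩
        rw [hc, hc', show d * (q * c') = d * c' * q by ring, Nat.mul_div_cancel _ hq.pos]
      rcases hpr q hq hqm with h | h
      · subst h
        exact Or.inl hdq
      · subst h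
        exact Or.inr hdq
    have part : ∀ x : F, (x : PadicAlgCl p) ∈ LogForms p L →
        LinearIndependent (Qb p) ![(x : PadicAlgCl p), (((t ^ (m / q₂)) x : F) : PadicAlgCl p)] →
        LinearIndependent (Qb p) ![(x : PadicAlgCl p), (((t ^ (m / q₁)) x : F) : PadicAlgCl p),
          (((t ^ (m / q₁)) ((t ^ (m / q₁)) x) : F) : PadicAlgCl p)] →
        Transcendental ℚ (∏ i ∈ Finset.range m, (((t ^ i) x : F) : PadicAlgCl p) ^ n i) :=
      fun x hx h h3 => Pool.Agent.H512.CJ.mono_two hV hσ hx hm ha hb hab ht n hζ hn h h3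
    refine ⟨part, ?_⟩
    intro α hα0 halg h1 h3
    obtain ⟨x, hx, hg⟩ := Pool.Agent.H512.CJ.log_lift (K := K) hL' hα0
    have ne1 : (α : PadicAlgCl p) ≠ 0 := fun e => hα0 (Subtype.ext e)
    have h2 := part x (by
      rw [hx]
      exact Submodule.subset_span (Or.inr ⟨_, ne1, halg, rfl⟩)) (by
      rw [hx, hg]
      exact Pool.Agent.H512.CJ.indep_two hL' ne1 (ne hα0 _) halg (al halg _) h1) (by
      have e : (((t ^ (m / q₁)) ((t ^ (m / q₁)) x) : F) : PadicAlgCl p) =
          L (((t ^ (m / q₁)) ((t ^ (m / q₁)) α) : F) : PadicAlgCl p) :=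
        hg (t ^ (m / q₁) * t ^ (m / q₁))
      rw [hx, hg, e]
      exact Pool.Agent.H512.CJ.indep_three hL' ne1 (ne hα0 _) (ne hα0 (t ^ (m / q₁) * t ^ (m / q₁))) halg
        (al halg _) (al halg (t ^ (m / q₁) * t ^ (m / q₁))) h3)
    simp only [hg] at h2
    exact h2

end Pool.Agent.Results.MP_c50dba_nt.MonomialsOfConjugates
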