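import Pool.Agent.H443.VD.Fu

/-!
# The `p`-adic linear subgroup theorem for algebraic varieties, with uniform bounds

Let `E` be the algebraic closure of `ℚ_p`, `L` the Iwasawa logarithm, let `k = ℚ` or `k = ℚ̄` (the field of algebraic
numbers in `E`), and let `𝓛` be the space of all linear combinations, with coefficients in `k`, of `1` and of `p`-adic
logarithms of algebraic numbers. For a linear subspace `V` of `E ^ m` of dimension `d` which contains no nonzero point
with coordinates in `k` the linear subgroup theorem (Waldschmidt, Roy) says that `V ∩ 𝓛 ^ m` has dimension at most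
`d (d + 1)` over `k`. Here `V` is an arbitrary algebraic subset of `E ^ m` (arbitrary coefficients in `E`, arbitrary
degree, reducible or not) of dimension at most `d`. If linearly independent `p`-adic logarithms are algebraically
independent and `V` is defined over the algebraic numbers, then `y ∈ 𝓛 ^ m` is in `V` only if `V` contains a translate
`y + R_E` of a linear space `R` defined over `k` through an algebraic point. We prove, with
`n = d (d + 1) + ρ max (N - d - 1, 0)` (so `n = ρ N + (d - ρ) (d + 1)` for `N > d`, and `n = d (d + 1)` for `ρ = 0`, as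
for linear spaces):

* Dimension. Let `W ⊆ 𝓛` be a space of dimension `N` over `k`. The points `y` of `V ∩ W ^ m` such that `V` contains no
  translate `y + R_E` of a linear space `R` over `k` of dimension greater than `ρ` lie in an algebraic subset of `W ^ m`
  of dimension at most `n`.
* Counting. Let `l_1, ..., l_N ∈ 𝓛` be linearly independent over `k`. For every finite subset `S` of `k` there are at
  most `B |S| ^ n` matrices `A` with entries in `S` such that the point `A l` is in `V`, but no translate `A l + R_E` of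
  a space `R` of dimension greater than `ρ` is contained in `V`.
* Uniformity. The constant `B`, and the degrees of the polynomials which define the algebraic subset of `W ^ m`, depend
  only on `p`, `m`, `N`, `d`, `ρ` and on the degrees `δ` of the equations of `V`, but neither on the coefficients of the
  equations nor on the space `W` or the numbers `l_j`.
* Growth. Let `k = ℚ`, and let `ρ` be the greatest dimension of a rational linear space `R` such that `V` contains
  `A₀ l + R_E` for some integer matrix `A₀`. The number of the integer matrices `A` with entries of absolute value at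
  most `H` and `A l ∈ V` is at least `H ^ (ρ N) / κ` and at most `κ H ^ n`.

The library result `ExpectedExponent` has the exponent `ρ N + (m - ρ) (m - 1)`, depending on the dimension `m` of the
ambient space instead of the dimension `d` of `V` (for hypersurfaces, `d = m - 1`, the new exponent is smaller by `ρ`),
and constants which depend on `V` and on the `l_j`. The complex twin of the present result is
`MP_60829e_nt.VarietiesOfGivenDimension`; the proof is described there.
-/

set_option autoImplicit false

namespace Pool.Agent.Results.MP_c50dba_nt.VarietiesOfGivenDimension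

open MvPolynomial

/-- `L` is the Iwasawa logarithm on the algebraic closure of `ℚ_p`. -/
structure IsIwasawaLog (p : ℕ) [Fact p.Prime] (L : PadicAlgCl p → PadicAlgCl p) : Prop where
  mul : ∀ x y : PadicAlgCl p, x ≠ 0 → y ≠ 0 → L (x * y) = L x + L y
  prime : L ((p : ℕ) : PadicAlgCl p) = 0
  ser : ∀ z : PadicAlgCl p, ‖z‖ < 1 →
    HasSum (fun n : ℕ => (-1 : PadicAlgCl p) ^ n * z ^ (n + 1) / ((n : PadicAlgCl p) + 1))
      (L (1 + z))

/-- The space of all linear combinations, with coefficients in `k`, of `1` and of the values of `L` at algebraic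
numbers. -/
noncomputable def LogForms (k : Type) {E : Type} [Field k] [Field E] [CharZero E] [Algebra k E] (L : E → E) :
    Submodule k E :=
  Submodule.span k ({1} ∪ {z | ∃ α : E, α ≠ 0 ∧ IsAlgebraic ℚ α ∧ z = L α})

/-- `V` is an algebraic set of dimension at most `d` and of complexity at most `δ`: it is defined by polynomials of
degree at most `δ`, and any `d + 1` coordinates satisfy a nonzero polynomial relation of degree at most `δ` on `V`. -/
def IsVariety {E : Type} [Field E] {m : ℕ} (d δ : ℕ) (V : Set (Fin m → E)) : Prop :=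
  (∃ 𝓕 : Set (MvPolynomial (Fin m) E), (∀ F ∈ 𝓕, F.totalDegree ≤ δ) ∧ V = {z | ∀ F ∈ 𝓕, eval z F = 0}) ∧
  ∀ e : Fin (d + 1) → Fin m, ∃ P : MvPolynomial (Fin (d + 1)) E, P ≠ 0 ∧ P.totalDegree ≤ δ ∧
    ∀ z ∈ V, eval (fun a => z (e a)) P = 0

/-- `V` contains the translate `y + R_E` of the span over `E` of the space `R` defined over `k`. -/
def ContainsTranslate (k : Type) {E : Type} [Field k] [Field E] [Algebra k E] {m : ℕ} (V : Set (Fin m → E))
    (y : Fin m → E) (R : Submodule k (Fin m → k)) : Prop :=
  ∀ c ∈ Submodule.span E {x : Fin m → E | ∃ v ∈ R, x = fun i => algebraMap k E (v i)}, y + c ∈ V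

/-- The set `Z` of `m`-tuples of elements of `W` lies in an algebraic subset of dimension at most `n`: any `n + 1`
linear forms satisfy a nonzero polynomial relation, of degree at most `B`, on `Z`. -/
def DimensionAtMost {k E : Type} [Field k] [Field E] [Algebra k E] (W : Submodule k E) {m : ℕ} (n B : ℕ)
    (Z : Set (Fin m → W)) : Prop :=
  ∀ φ : Fin (n + 1) → ((Fin m → W) →ₗ[k] k),
    ∃ P : MvPolynomial (Fin (n + 1)) k, P ≠ 0 ∧ P.totalDegree ≤ B ∧ ∀ y ∈ Z, eval (fun a => φ a y) P = 0

/-- The point `A l`. -/
noncomputable def point {k E : Type} [Field k] [Field E] [Algebra k E] {m N : ℕ} (l : Fin N → E)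
    (A : Fin m → Fin N → k) : Fin m → E :=
  fun i => ∑ j, algebraMap k E (A i j) * l j

/-- Dimension and counting over `k`, with one bound `B` for all `V`, `W`, `l` and `S`. -/
def UniformBound (k : Type) {E : Type} [Field k] [Field E] [CharZero E] [Algebra k E] (L : E → E)
    (m N d δ ρ : ℕ) : Prop :=
  ∃ B : ℕ, ∀ V : Set (Fin m → E), IsVariety d δ V →
    (∀ W : Submodule k E, FiniteDimensional k W → Module.finrank k W = N → W ≤ LogForms k L →
      DimensionAtMost W (d * (d + 1) + ρ * (N - (d + 1))) B
        {y : Fin m → W | (fun i => (y i : E)) ∈ V ∧ ∀ R : Submodule k (Fin m → k),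
          ContainsTranslate k V (fun i => (y i : E)) R → Module.finrank k R ≤ ρ}) ∧
    ∀ l : Fin N → E, (∀ j, l j ∈ LogForms k L) → LinearIndependent k l → ∀ S : Finset k, S.Nonempty →
      Set.ncard {A : Fin m → Fin N → k | (∀ i j, A i j ∈ S) ∧ point l A ∈ V ∧
        ∀ R : Submodule k (Fin m → k), ContainsTranslate k V (point l A) R → Module.finrank k R ≤ ρ} ≤
      B * S.card ^ (d * (d + 1) + ρ * (N - (d + 1)))

/-- The number of the integer matrices `A` with entries of absolute value at most `H` such that `A l ∈ V`. -/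
noncomputable def number {E : Type} [Field E] [CharZero E] {m N : ℕ} (V : Set (Fin m → E)) (l : Fin N → E)
    (H : ℕ) : ℕ :=
  Set.ncard {A : Fin m → Fin N → ℤ | (∀ i j, |A i j| ≤ H) ∧ point l (fun i j => (A i j : ℚ)) ∈ V}

/-- **Main result.** -/
theorem result (p : ℕ) [Fact p.Prime] (L : PadicAlgCl p → PadicAlgCl p) (hL : IsIwasawaLog p L)
    (m N d δ ρ : ℕ) :
    UniformBound (algebraicClosure ℚ (PadicAlgCl p)) L m N d δ ρ ∧ UniformBound ℚ L m N d δ ρ ∧
    ∀ V : Set (Fin m → PadicAlgCl p), IsVariety d δ V → ∀ l : Fin N → PadicAlgCl p,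
      (∀ j, l j ∈ LogForms ℚ L) → LinearIndependent ℚ l →
      IsGreatest {n : ℕ | ∃ (A : Fin m → Fin N → ℤ) (R : Submodule ℚ (Fin m → ℚ)), Module.finrank ℚ R = n ∧
        ContainsTranslate ℚ V (point l (fun i j => (A i j : ℚ))) R} ρ →
      ∃ κ : ℕ, ∀ H : ℕ, κ ≤ H → H ^ (ρ * N) ≤ κ * number V l H ∧
        number V l H ≤ κ * H ^ (d * (d + 1) + ρ * (N - (d + 1))) := by
  have hL' : Pool.Agent.W245.PB.IsIwasawaLog p L := ⟨hL.mul, hL.prime, hL.ser⟩
  have key : ∀ (k : Type) [Field k] [CharZero k] [Algebra k (PadicAlgCl p)],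
      Pool.Agent.W254.PA.Hyp (LogForms k L) → UniformBound k L m N d δ ρ := by
    intro k _ _ _ hL
    obtain ⟨B₁, h1⟩ := Pool.Agent.H443.VD.unifV_dim hL m N d δ ρ
    obtain ⟨B₂, h2⟩ := Pool.Agent.H443.VD.unifV_count hL m N d δ ρ
    refine ⟨B₁ + B₂, fun V hV => ⟨?_, ?_⟩⟩
    · intro W hf hN hW φ
      obtain ⟨P, h3, h4, h5⟩ := h1 W hN hf hW V hV φ
      exact ⟨P, h3, h4.trans (Nat.le_add_right _ _), fun y hy => h5 y hy.1 hy.2⟩
    · intro l hl hli S hS
      exact (h2 l hl hli V hV S hS).trans (Nat.mul_le_mul_right _ (Nat.le_add_left _ _))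
  have hQ : Pool.Agent.W254.PA.Hyp (LogForms ℚ L) := Pool.Agent.Y787.AS.hypQ_padic hL'
  have hQC : Pool.Agent.W254.PA.Hyp (LogForms (algebraicClosure ℚ (PadicAlgCl p)) L) :=
    Pool.Agent.W254.PA.hyp_padic hL'
  refine ⟨key _ hQC, key ℚ hQ, ?_⟩
  intro V hV l hl hli hρ
  obtain ⟨⟨A, R, hR1, hR2⟩, hmax⟩ := hρ
  obtain ⟨F, hF1, hF2, hF3⟩ := Pool.Agent.H443.VD.IsVar.fin hV
  have hpt : ∀ A : Fin m → Fin N → ℤ, point l (fun i j => (A i j : ℚ)) =
      fun i => ∑ j, (A i j : PadicAlgCl p) * l j := by
    intro A
    funext i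
    simp [point]
  have hnum : ∀ H, number V l H = Pool.Agent.Y787.AS.numV F l H := by
    intro H
    unfold number Pool.Agent.Y787.AS.numV
    congr 1
    ext A
    simp only [Set.mem_ofPred_eq, hpt, hF3]
  obtain ⟨κ₁, h1, h2⟩ := Pool.Agent.Y787.AS.var_lower l F A R (by
    rw [← hpt]
    exact (Pool.Agent.H443.VD.trans_iff hF3 _ _).1 hR2)
  obtain ⟨κ₂, h3⟩ := Pool.Agent.H443.VD.var_upper hQ l hl hli F (ρ := ρ)
    (fun e => by
      obtain ⟨P, hP1, _, hP2⟩ := hF2 e
      exact ⟨P, hP1, hP2⟩)
    (fun A' R' h => hmax ⟨A', R', rfl, by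
      rw [hpt]
      exact (Pool.Agent.H443.VD.trans_iff hF3 _ _).2 h⟩)
  refine ⟨κ₁ + κ₂, fun H hH => ⟨?_, ?_⟩⟩
  · have h4 := h2 H (by omega)
    rw [hR1] at h4
    rw [hnum]
    exact h4.trans (Nat.mul_le_mul_right _ (by omega))
  · rw [hnum]
    exact (h3 H (by omega)).trans (Nat.mul_le_mul_right _ (by omega))

end Pool.Agent.Results.MP_c50dba_nt.VarietiesOfGivenDimension
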